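import Pool.Agent.V5helper43.WP.Stm

/-! # Project WP: dependence on finitely many perturbations -/

set_option autoImplicit false

open Finset MeasureTheory ProbabilityTheory

namespace Pool.Agent.V5helper37.WP

open Pool.Agent.V5helper43.WP

lemma depU (k q : ℕ) (t t' : ℕ → ℕ) (i n : ℕ) (hk : 1 ≤ k) (h : ∀ x ≤ n, x % q ≤ i → t x = t' x) :
    ∀ (j z : ℕ), z ≤ n → z ∈ U k q t j → z ∈ U k q t' j := by
  intro j
  induction j with
  | zero => intro z _ hz; exact hz
  | succ j ih =>
    rintro z hz ⟨x, hx1, hqx, v, hv, rfl⟩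
    have h1 : x ≤ x ^ k := Nat.le_self_pow (by omega) x
    have h2 : x ^ k ≤ a k t x := Nat.le_add_right _ _
    have h3 : t x = t' x := h x (by omega) (by rw [Nat.mod_eq_zero_of_dvd hqx]; exact Nat.zero_le _)
    refine ⟨x, hx1, hqx, v, ih v (by omega) hv, ?_⟩
    unfold a
    rw [h3]

theorem t_DEP : S_DEP := by
  intro k q j X t t' i
  induction i with
  | zero =>
    intro n hk h z hz hW
    exact depU k q t t' 0 n hk h j z hz hW
  | succ i ih =>
    intro n hk h z hz hW
    obtain ⟨x, hx, v, hv, rfl⟩ := hW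
    have h1 : x ≤ x ^ k := Nat.le_self_pow (by omega) x
    have h2 : x ^ k ≤ a k t x := Nat.le_add_right _ _
    have hxm : x % q = i + 1 := (Finset.mem_filter.mp hx).2
    have h3 : t x = t' x := h x (by omega) (by omega)
    refine ⟨x, hx, v, ih n hk (fun y hy hyi => h y hy (by omega)) v (by omega) hv, ?_⟩
    unfold a
    rw [h3]

lemma reprU (k q : ℕ) (t : ℕ → ℕ) : ∀ (j z : ℕ), z ∈ U k q t j →
    ∃ x : Fin j → ℕ, (∀ l, 1 ≤ x l) ∧ ∑ l, (x l ^ k + t (x l)) = z := by
  intro j
  induction j with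
  | zero =>
    intro z hz
    have hz0 : z = 0 := hz
    exact ⟨fun _ => 1, fun _ => le_refl _, by rw [hz0]; simp⟩
  | succ j ih =>
    rintro z ⟨x, hx1, _, v, hv, rfl⟩
    obtain ⟨y, hy1, hy⟩ := ih v hv
    refine ⟨Fin.snoc y x, ?_, ?_⟩
    · intro l
      refine Fin.lastCases ?_ (fun l => ?_) l
      · simpa using hx1
      · simpa using hy1 l
    · rw [Fin.sum_univ_castSucc]
      simp only [Fin.snoc_castSucc, Fin.snoc_last]
      rw [hy]
      rfl

theorem t_REPR : S_REPR := by
  intro k q j X t i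
  induction i with
  | zero =>
    intro z _ hz
    exact reprU k q t j z hz
  | succ i ih =>
    rintro z hX ⟨x, hx, v, hv, rfl⟩
    obtain ⟨y, hy1, hy⟩ := ih v hX hv
    have hxX : X ≤ x := (Finset.mem_Icc.mp (Finset.mem_filter.mp hx).1).1
    refine ⟨Fin.snoc (α := fun _ => ℕ) (n := j + i) y x, ?_, ?_⟩
    · intro l
      refine Fin.lastCases (n := j + i) ?_ (fun l => ?_) l
      · rw [Fin.snoc_last]; omega
      · rw [Fin.snoc_castSucc]; exact hy1 l
    · have := Fin.sum_univ_castSucc (n := j + i) (fun l : Fin (j + i + 1) =>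
        ((Fin.snoc (α := fun _ => ℕ) (n := j + i) y x : Fin (j + i + 1) → ℕ) l ^ k +
          t ((Fin.snoc (α := fun _ => ℕ) (n := j + i) y x : Fin (j + i + 1) → ℕ) l)))
      simp only [Fin.snoc_castSucc, Fin.snoc_last] at this
      rw [hy] at this
      exact this

end Pool.Agent.V5helper37.WP
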